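import Pool.Agent.H79.Five.C.G000
import Pool.Agent.H79.Five.C.G001
import Pool.Agent.H79.Five.C.G002
import Pool.Agent.H79.Five.C.G003
import Pool.Agent.H79.Five.C.G004
import Pool.Agent.H79.Five.C.G005
import Pool.Agent.H79.Five.C.G006
import Pool.Agent.H79.Five.C.G007
import Pool.Agent.H79.Five.C.G008
import Pool.Agent.H79.Five.C.G009
import Pool.Agent.H79.Five.C.G010
import Pool.Agent.H79.Five.C.G011
import Pool.Agent.H79.Five.C.G012
import Pool.Agent.H79.Five.C.G013
import Pool.Agent.H79.Five.C.G014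
import Pool.Agent.H79.Five.C.G015
import Pool.Agent.H79.Five.C.G016
import Pool.Agent.H79.Five.C.G017
import Pool.Agent.H79.Five.C.G018
import Pool.Agent.H79.Five.C.G019
import Pool.Agent.H79.Five.C.G020
import Pool.Agent.H79.Five.C.G021
import Pool.Agent.H79.Five.C.G022
import Pool.Agent.H79.Five.C.G023
import Pool.Agent.H79.Five.C.G024
import Pool.Agent.H79.Five.C.G025
import Pool.Agent.H79.Five.C.G026
import Pool.Agent.H79.Five.C.G027
import Pool.Agent.H79.Five.C.G028
import Pool.Agent.H79.Five.C.G029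
import Pool.Agent.H79.Five.C.G030
import Pool.Agent.H79.Five.C.G031
import Pool.Agent.H79.Five.C.G032
import Pool.Agent.H79.Five.C.G033
import Pool.Agent.H79.Five.C.G034
import Pool.Agent.H79.Five.C.G035
import Pool.Agent.H79.Five.C.G036
import Pool.Agent.H79.Five.C.G037
import Pool.Agent.H79.Five.C.G038
import Pool.Agent.H79.Five.C.G039
import Pool.Agent.H79.Five.C.G040
import Pool.Agent.H79.Five.C.G041
import Pool.Agent.H79.Five.C.G042
import Pool.Agent.H79.Five.C.G043
import Pool.Agent.H79.Five.C.G044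
import Pool.Agent.H79.Five.C.G045
import Pool.Agent.H79.Five.C.G046
import Pool.Agent.H79.Five.C.G047
import Pool.Agent.H79.Five.C.G048
import Pool.Agent.H79.Five.C.G049
import Pool.Agent.H79.Five.C.G050
import Pool.Agent.H79.Five.C.G051
import Pool.Agent.H79.Five.C.G052
import Pool.Agent.H79.Five.C.G053
import Pool.Agent.H79.Five.C.G054
import Pool.Agent.H79.Five.C.G055
import Pool.Agent.H79.Five.C.G056
import Pool.Agent.H79.Five.C.G057
import Pool.Agent.H79.Five.C.G058
import Pool.Agent.H79.Five.C.G059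
import Pool.Agent.H79.Five.C.G060
import Pool.Agent.H79.Five.C.G061
import Pool.Agent.H79.Five.C.G062
import Pool.Agent.H79.Five.C.G063
import Pool.Agent.H79.Five.C.G064
import Pool.Agent.H79.Five.C.GT00
import Pool.Agent.H79.Five.C.J000
import Pool.Agent.H79.Five.C.J001
import Pool.Agent.H79.Five.C.J002
import Pool.Agent.H79.Five.C.J003
import Pool.Agent.H79.Five.C.J004
import Pool.Agent.H79.Five.C.J005
import Pool.Agent.H79.Five.C.J006
import Pool.Agent.H79.Five.C.J007
import Pool.Agent.H79.Five.C.J008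
import Pool.Agent.H79.Five.C.J009
import Pool.Agent.H79.Five.C.J010
import Pool.Agent.H79.Five.C.J011
import Pool.Agent.H79.Five.C.J012
import Pool.Agent.H79.Five.C.J013
import Pool.Agent.H79.Five.C.J014
import Pool.Agent.H79.Five.C.J015
import Pool.Agent.H79.Five.C.J016
import Pool.Agent.H79.Five.C.J017
import Pool.Agent.H79.Five.C.J018
import Pool.Agent.H79.Five.C.J019
import Pool.Agent.H79.Five.C.J020
import Pool.Agent.H79.Five.C.J021
import Pool.Agent.H79.Five.C.J022
import Pool.Agent.H79.Five.C.J023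
import Pool.Agent.H79.Five.C.J024
import Pool.Agent.H79.Five.C.J025
import Pool.Agent.H79.Five.C.J026
import Pool.Agent.H79.Five.C.J027
import Pool.Agent.H79.Five.C.J028
import Pool.Agent.H79.Five.C.J029
import Pool.Agent.H79.Five.C.J030
import Pool.Agent.H79.Five.C.J031
import Pool.Agent.H79.Five.C.J032
import Pool.Agent.H79.Five.C.J033
import Pool.Agent.H79.Five.C.J034
import Pool.Agent.H79.Five.C.J035
import Pool.Agent.H79.Five.C.J036
import Pool.Agent.H79.Five.C.J037
import Pool.Agent.H79.Five.C.J038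
import Pool.Agent.H79.Five.C.J039
import Pool.Agent.H79.Five.C.J040
import Pool.Agent.H79.Five.C.J041
import Pool.Agent.H79.Five.C.J042
import Pool.Agent.H79.Five.C.JT00
import Pool.Agent.H79.Five.C.JT01
import Pool.Agent.H79.Five.C.JT02
import Pool.Agent.H79.Five.C.N000
import Pool.Agent.H79.Five.C.P10
import Pool.Agent.H79.Five.C.P11
import Pool.Agent.H79.Five.C.P20
import Pool.Agent.H79.Five.C.P21
import Pool.Agent.H79.Five.C.P22
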